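import Pool.Agent.H1.Dom.Glue
import Pool.Agent.H1.Dom.B1
import Pool.Agent.H1.Dom.C1
import Pool.Agent.H15.Dom.E4

/-!
The game domination problem is PSPACE-hard on split graphs.
-/

namespace Pool.Agent.Results.MP_0061eb_lc.PSpaceHard

open Set Turing

/-! ### The domination game -/

/-- The closed neighbourhood of `v`, that is, the set of vertices dominated by `v`. -/
def closedNbhd {V : Type} (G : SimpleGraph V) (v : V) : Set V := {w | w = v ∨ G.Adj v w}

/-- The vertex `v` may be chosen when `A` is the set of vertices dominated so far: it dominates a
vertex outside `A`. -/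
def CanChoose {V : Type} (G : SimpleGraph V) (A : Set V) (v : V) : Prop := ¬ closedNbhd G v ⊆ A

open Classical in
/-- The number of further moves of the domination game, when both players play optimally, from the
position in which `A` is the set of dominated vertices: it is `0` if all vertices are dominated,
otherwise one plus the minimum over all allowed choices if Dominator is to move (the flag is
`true`), and one plus the maximum over all allowed choices if Staller is to move (the flag is
`false`).  The first argument is an upper bound for the number of further moves. -/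
noncomputable def movesLeft {V : Type} (G : SimpleGraph V) : ℕ → Bool → Set V → ℕ
  | 0, _, _ => 0
  | n + 1, true, A => if A = univ then 0 else
      (⨅ v : {v // CanChoose G A v}, movesLeft G n false (A ∪ closedNbhd G v)) + 1
  | n + 1, false, A => if A = univ then 0 else
      (⨆ v : {v // CanChoose G A v}, movesLeft G n true (A ∪ closedNbhd G v)) + 1

/-- The game domination number: Dominator moves first and no vertex is dominated; as every move
dominates a new vertex, the number of vertices is an upper bound for the number of moves. -/
noncomputable def gameDominationNumber {V : Type} [Fintype V] (G : SimpleGraph V) : ℕ :=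
  movesLeft G (Fintype.card V) true ∅

/-- Split graphs: the vertex set is the union of a clique and a disjoint independent set. -/
def IsSplitGraph {V : Type} (G : SimpleGraph V) : Prop :=
  ∃ s : Set V, G.IsClique s ∧ G.IsIndepSet sᶜ

/-! ### Codes of instances -/

/-- The finite simple graph given by its number of vertices and a list of edges: the vertices are
`0, …, n - 1`, and distinct `u` and `v` are adjacent if `(u, v)` or `(v, u)` is in the list. -/
def graphOf (g : ℕ × List (ℕ × ℕ)) : SimpleGraph (Fin g.1) :=
  SimpleGraph.fromRel (fun u v => ((u : ℕ), (v : ℕ)) ∈ g.2)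

/-- The code of the instance consisting of a graph and the number `k`: the numbers
`k, n, u₁, v₁, u₂, v₂, …` where `n` is the number of vertices and `(u₁, v₁), (u₂, v₂), …` are the
listed edges; each number `x` is written as `x` ones and a zero. -/
def instanceCode (g : ℕ × List (ℕ × ℕ)) (k : ℕ) : List Bool :=
  (k :: g.1 :: g.2.flatMap (fun e => [e.1, e.2])).flatMap
    (fun x => List.replicate x true ++ [false])

open Classical in
/-- The game domination problem on split graphs: is the input string the code of a split graph `G`
and a number `k` with `γ_g(G) ≤ k`? -/
noncomputable def SplitGameDomination : N68a2faeb.DecisionProblem :=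
  fun w => decide (∃ g k, instanceCode g k = w ∧ IsSplitGraph (graphOf g) ∧
    gameDominationNumber (graphOf g) ≤ k)

/-! ### Polynomial space -/

/-- A machine (Mathlib's machines `FinTM2` with finitely many stacks) deciding `L` in polynomial
space: started with `x` on the input stack, it halts with the answer on the output stack, and in
every configuration reached on the input `x` each stack has at most `space (|x|)` symbols. -/
structure PolySpaceDecider (L : N68a2faeb.DecisionProblem) where
  tm : FinTM2
  inputAlphabet : tm.Γ tm.k₀ ≃ Bool
  outputAlphabet : tm.Γ tm.k₁ ≃ Bool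
  space : Polynomial ℕ
  outputsFun : ∀ x : List Bool, TM2Outputs tm (x.map inputAlphabet.invFun)
    (some [outputAlphabet.invFun (L x)])
  space_le : ∀ (x : List Bool) (n : ℕ) (c : tm.Cfg),
    (flip bind tm.step)^[n] (some (initList tm (x.map inputAlphabet.invFun))) = some c →
      ∀ k, (c.stk k).length ≤ space.eval x.length

/-- The class PSPACE. -/
def PSPACE : N68a2faeb.DecisionComplexityClass := {L | Nonempty (PolySpaceDecider L)}

/-! ### The theorem -/

theorem pspace_eq : PSPACE = H1.Dom.PSPACE := by
  ext L
  constructor
  · rintro ⟨h⟩
    exact ⟨⟨h.tm, h.inputAlphabet, h.outputAlphabet, h.space, h.outputsFun, h.space_le⟩⟩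
  · rintro ⟨h⟩
    exact ⟨⟨h.tm, h.inputAlphabet, h.outputAlphabet, h.space, h.outputsFun, h.space_le⟩⟩

theorem moves_eq {V : Type} (G : SimpleGraph V) : ∀ (n : ℕ) (b : Bool) (A : Set V),
    movesLeft G n b A = H1.Dom.moves G n b A := by
  intro n
  induction n with
  | zero => intro b A; cases b <;> rfl
  | succ n ih =>
    intro b A
    cases b with
    | true =>
      rw [movesLeft, H1.Dom.moves]
      simp only [ih]
      rfl
    | false =>
      rw [movesLeft, H1.Dom.moves]
      simp only [ih]
      rfl

theorem gdn_eq {V : Type} [Fintype V] (G : SimpleGraph V) :
    gameDominationNumber G = H1.Dom.gameDom G := moves_eq G _ _ _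

/-- **The game domination problem is PSPACE-hard on split graphs.**  Every problem in PSPACE is
reducible, by a many-one reduction computable in polynomial time, to the problem
`SplitGameDomination`; more generally, it is so reducible to every decision problem `Q` which gives
the right answer on all codes of instances `(G, k)` with a split graph `G`.  In particular, if such
a problem is in P then P = PSPACE. -/
theorem result :
    (∀ L ∈ PSPACE, N793a5b8e.ManyOneReducible L SplitGameDomination) ∧
    (∀ Q : N68a2faeb.DecisionProblem,
      (∀ g k, IsSplitGraph (graphOf g) →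
        (Q (instanceCode g k) = true ↔ gameDominationNumber (graphOf g) ≤ k)) →
      (∀ L ∈ PSPACE, N793a5b8e.ManyOneReducible L Q) ∧
      (Q ∈ N68a2faeb.P → N68a2faeb.P = PSPACE)) := by
  have key : ∀ Q : N68a2faeb.DecisionProblem,
      (∀ g k, IsSplitGraph (graphOf g) →
        (Q (instanceCode g k) = true ↔ gameDominationNumber (graphOf g) ≤ k)) →
      ∀ L ∈ PSPACE, N793a5b8e.ManyOneReducible L Q := by
    intro Q hQ L hL
    rw [pspace_eq] at hL
    refine H1.Dom.hard H1.Dom.tb0 H1.Dom.tb1 H1.Dom.tc0 H1.Dom.tc1 H15.Dom.te
      (fun g k hg => ?_) L hL
    have := hQ g k hg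
    rw [gdn_eq] at this
    exact this
  refine ⟨key _ (fun g k hg => ?_), fun Q hQ => ⟨key Q hQ, fun hP => ?_⟩⟩
  · have e : (SplitGameDomination (instanceCode g k) = true) ↔
        ∃ g' k', instanceCode g' k' = instanceCode g k ∧ IsSplitGraph (graphOf g') ∧
          gameDominationNumber (graphOf g') ≤ k' := by
      unfold SplitGameDomination
      exact @decide_eq_true_iff _ (Classical.propDecidable _)
    rw [e]
    constructor
    · rintro ⟨g', k', h1, _, h3⟩
      have h4 : (g', k') = (g, k) := H1.Dom.encI_inj h1
      injection h4 with h4 h5
      subst h4 h5
      exact h3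
    · intro h
      exact ⟨g, k, rfl, hg, h⟩
  · rw [pspace_eq]
    refine H1.Dom.P_eq_PSPACE_of_hard (fun L hL => key Q hQ L ?_) hP
    rw [pspace_eq]
    exact hL

end Pool.Agent.Results.MP_0061eb_lc.PSpaceHard
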